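import Pool.Agent.TH133.PW.Kun

/-!
# The pointwise principle for an idempotent which commutes with an algebra of operators
-/

set_option autoImplicit false

namespace Pool.Agent.N553.PP

open Submodule

variable {K V : Type*} [Field K] [AddCommGroup V] [Module K V]

/-- The subspace `N` is stable under the operators in `S`. -/
def Stable (S : Set (Module.End K V)) (N : Submodule K V) : Prop := ∀ φ ∈ S, ∀ x ∈ N, φ x ∈ N

/-- For all `y` with `p y = y` and `y'` with `p y' = 0` some linear combination `φ` of the operators in `S`, which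
may depend on `y` and `y'`, satisfies `φ y = y` and `φ y' = 0`. -/
def Separates (p : Module.End K V) (S : Set (Module.End K V)) : Prop :=
  ∀ y y', p y = y → p y' = 0 → ∃ φ ∈ span K S, φ y = y ∧ φ y' = 0

/-- If `p y = y`, `p y' = 0` and `l (φ y) + l' (φ y') = 0` for all `φ` in `S`, where `l` and `l'` are linear forms,
then `l y = 0`. -/
def Detects (p : Module.End K V) (S : Set (Module.End K V)) : Prop :=
  ∀ y y', p y = y → p y' = 0 → ∀ l l' : V →ₗ[K] K, (∀ φ ∈ S, l (φ y) + l' (φ y') = 0) → l y = 0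

/-- Every stable subspace is stable under `p`. -/
def StableSplit (p : Module.End K V) (S : Set (Module.End K V)) : Prop :=
  ∀ N : Submodule K V, Stable S N → ∀ x ∈ N, p x ∈ N

/-- Every linear map `g : N → U' / L'` which commutes with the operators in `S` is zero, where `N` is a stable subspace
of the image `U` of `p` and `L'` a stable subspace of the kernel `U'` of `p`. -/
def NoCommonFactor (p : Module.End K V) (S : Set (Module.End K V)) : Prop :=
  ∀ N L' : Submodule K V, Stable S N → Stable S L' → (∀ x ∈ N, p x = x) → (∀ x ∈ L', p x = 0) →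
    ∀ g : N →ₗ[K] V ⧸ L', (∀ x : N, ∃ y', p y' = 0 ∧ g x = L'.mkQ y') →
      (∀ φ ∈ S, ∀ (x x' : N) (y' : V), (x' : V) = φ x → g x = L'.mkQ y' → g x' = L'.mkQ (φ y')) →
      g = 0

theorem span_stable {S : Set (Module.End K V)} {N : Submodule K V} (hN : Stable S N) :
    ∀ φ ∈ span K S, ∀ x ∈ N, φ x ∈ N := by
  intro φ hφ
  induction hφ using Submodule.span_induction with
  | mem φ hφ => exact hN φ hφ
  | zero => exact fun x _ => Submodule.zero_mem _
  | add φ ψ _ _ h1 h2 => exact fun x hx => Submodule.add_mem _ (h1 x hx) (h2 x hx)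
  | smul a φ _ h => exact fun x hx => Submodule.smul_mem _ _ (h x hx)

theorem noCommon_of_split {p : Module.End K V} {S : Set (Module.End K V)}
    (hc : ∀ φ ∈ S, ∀ x, φ (p x) = p (φ x)) (h : StableSplit p S) : NoCommonFactor p S := by
  intro N L' hN hL' hpN hpL' g hg hgS
  obtain ⟨G, hG⟩ : ∃ G : Submodule K V, ∀ v, v ∈ G ↔ ∃ (x : N) (y' : V), p y' = 0 ∧
      g x = L'.mkQ y' ∧ v = x + y' := by
    refine ⟨⟨⟨⟨{v | ∃ (x : N) (y' : V), p y' = 0 ∧ g x = L'.mkQ y' ∧ v = x + y'}, ?_⟩, ?_⟩, ?_⟩,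
      fun v => Iff.rfl⟩
    · rintro _ _ ⟨x, y, h1, h2, rfl⟩ ⟨x', y', h1', h2', rfl⟩
      refine ⟨x + x', y + y', by rw [map_add, h1, h1', add_zero], by rw [map_add, h2, h2', map_add], ?_⟩
      push_cast
      abel
    · exact ⟨0, 0, map_zero _, by rw [map_zero, map_zero], by simp⟩
    · rintro c _ ⟨x, y, h1, h2, rfl⟩
      refine ⟨c • x, c • y, by rw [map_smul, h1, smul_zero], by rw [map_smul, h2, map_smul], ?_⟩
      push_cast
      rw [smul_add]
  have hGs : Stable S G := by
    intro φ hφ v hv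
    obtain ⟨x, y, h1, h2, rfl⟩ := (hG v).1 hv
    refine (hG _).2 ⟨⟨φ x, hN φ hφ x x.2⟩, φ y, ?_, ?_, by rw [map_add]⟩
    · rw [← hc φ hφ, h1, map_zero]
    · exact hgS φ hφ x _ y rfl h2
  ext x
  obtain ⟨y, h1, h2⟩ := hg x
  have h3 := h G hGs (x + y) ((hG _).2 ⟨x, y, h1, h2, rfl⟩)
  rw [map_add, h1, add_zero, hpN x x.2] at h3
  obtain ⟨x1, y1, h4, h5, h6⟩ := (hG _).1 h3
  have h7 := congrArg p h6
  rw [map_add, h4, add_zero, hpN x x.2, hpN x1 x1.2] at h7
  have h8 : x = x1 := Subtype.ext h7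
  have h9 : y1 = 0 := by
    rw [← h8] at h6
    exact (left_eq_add.1 h6)
  rw [h8, h5, h9, map_zero]
  rfl

theorem split_of_noCommon {p : Module.End K V} {S : Set (Module.End K V)} (hp : ∀ x, p (p x) = p x)
    (hc : ∀ φ ∈ S, ∀ x, φ (p x) = p (φ x)) (h : NoCommonFactor p S) : StableSplit p S := by
  intro Q hQ x hx
  obtain ⟨N, hN⟩ : ∃ N : Submodule K V, N = Q.map p := ⟨_, rfl⟩
  obtain ⟨L, hL⟩ : ∃ L : Submodule K V, L = Q ⊓ LinearMap.ker p := ⟨_, rfl⟩
  have hpN : ∀ x ∈ N, p x = x := by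
    intro x hx
    rw [hN] at hx
    obtain ⟨z, -, rfl⟩ := hx
    exact hp z
  have hpL : ∀ x ∈ L, p x = 0 := by
    intro x hx
    rw [hL] at hx
    exact hx.2
  have hNs : Stable S N := by
    intro φ hφ x hx
    rw [hN] at hx ⊢
    obtain ⟨z, hz, rfl⟩ := hx
    exact ⟨φ z, hQ φ hφ z hz, (hc φ hφ z).symm⟩
  have hLs : Stable S L := by
    intro φ hφ x hx
    have h0 := hpL x hx
    rw [hL] at hx ⊢
    refine Submodule.mem_inf.2 ⟨hQ φ hφ x hx.1, LinearMap.mem_ker.2 ?_⟩
    rw [← hc φ hφ, h0, map_zero]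
  -- a section
  obtain ⟨f, hf⟩ : ∃ f : Q →ₗ[K] N, ∀ z : Q, (f z : V) = p z :=
    ⟨(p.comp Q.subtype).codRestrict N fun z => by rw [hN]; exact ⟨z, z.2, rfl⟩, fun z => rfl⟩
  have hfs : Function.Surjective f := by
    rintro ⟨y, hy⟩
    rw [hN] at hy
    obtain ⟨z, hz, rfl⟩ := hy
    exact ⟨⟨z, hz⟩, Subtype.ext (hf _)⟩
  obtain ⟨s, hs⟩ := f.exists_rightInverse_of_surjective (LinearMap.range_eq_top.2 hfs)
  have hs' : ∀ y : N, p (s y) = y := by
    intro y
    rw [← hf, ← LinearMap.comp_apply, hs, LinearMap.id_apply]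
  obtain ⟨g, hg⟩ : ∃ g : N →ₗ[K] V ⧸ L, ∀ y : N, g y = L.mkQ ((s y : V) - y) :=
    ⟨L.mkQ ∘ₗ (Q.subtype ∘ₗ s - N.subtype), fun y => rfl⟩
  have h0 : g = 0 := by
    refine h N L hNs hLs hpN hpL g (fun y => ⟨(s y : V) - y, ?_, hg y⟩) ?_
    · rw [map_sub, hs', hpN y y.2, sub_self]
    · intro φ hφ y y' z hy' hz
      rw [hg] at hz ⊢
      have h1 : (s y : V) - y - z ∈ L := by
        rw [← Submodule.ker_mkQ L, LinearMap.mem_ker, map_sub, hz, sub_self]
      have h2 := hLs φ hφ _ h1
      rw [map_sub, map_sub] at h2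
      have h3 : (s y' : V) - φ (s y) ∈ L := by
        rw [hL]
        refine Submodule.mem_inf.2 ⟨Submodule.sub_mem _ (s y').2 (hQ φ hφ _ (s y).2),
          LinearMap.mem_ker.2 ?_⟩
        rw [map_sub, hs', ← hc φ hφ, hs', hy', sub_self]
      have h4 := Submodule.add_mem _ h3 h2
      rw [← sub_eq_zero, ← map_sub]
      rw [← LinearMap.mem_ker, Submodule.ker_mkQ]
      have e : (s y' : V) - y' - φ z = (s y' : V) - φ (s y) + (φ (s y) - φ y - φ z) := by
        rw [hy']
        abel
      rw [e]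
      exact h4
  have hy : p x ∈ N := by rw [hN]; exact ⟨x, hx, rfl⟩
  have h1 := hg ⟨p x, hy⟩
  rw [h0, LinearMap.zero_apply] at h1
  have h2 : (s ⟨p x, hy⟩ : V) - p x ∈ L := by
    rw [← Submodule.ker_mkQ L, LinearMap.mem_ker]
    exact h1.symm
  rw [hL] at h2
  have h3 := Submodule.sub_mem _ (s ⟨p x, hy⟩).2 h2.1
  rwa [sub_sub_cancel] at h3

/-- **The pointwise principle.** -/
theorem core [FiniteDimensional K V] {p : Module.End K V} {S : Set (Module.End K V)}
    (hp : p * p = p) (hc : ∀ φ ∈ S, Commute φ p) (h1 : (1 : Module.End K V) ∈ span K S)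
    (hmul : ∀ a ∈ span K S, ∀ b ∈ span K S, a * b ∈ span K S) :
    [p ∈ span K S, Separates p S, Detects p S, StableSplit p S, NoCommonFactor p S].TFAE := by
  have hpp : ∀ x, p (p x) = p x := fun x => by rw [← Module.End.mul_apply, hp]
  have hcS : ∀ φ ∈ S, ∀ x, φ (p x) = p (φ x) := fun φ hφ x => by
    rw [← Module.End.mul_apply, ← Module.End.mul_apply, (hc φ hφ).eq]
  have hcA : ∀ φ ∈ span K S, ∀ x, φ (p x) = p (φ x) := by
    intro φ hφ
    induction hφ using Submodule.span_induction with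
    | mem φ hφ => exact hcS φ hφ
    | zero => exact fun x => by simp
    | add φ ψ _ _ h1 h2 =>
      exact fun x => by rw [LinearMap.add_apply, LinearMap.add_apply, map_add, h1, h2]
    | smul a φ _ h => exact fun x => by rw [LinearMap.smul_apply, LinearMap.smul_apply, map_smul, h]
  tfae_have 1 → 4 := fun h N hN x hx => span_stable hN p h x hx
  tfae_have 4 → 2 := by
    intro h y y' hy hy'
    have h2 := h ((span K S).map (LinearMap.applyₗ (y + y')))
      (by
        rintro φ hφ _ ⟨ψ, hψ, rfl⟩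
        exact ⟨φ * ψ, hmul φ (subset_span hφ) ψ hψ, rfl⟩) (y + y') ⟨1, h1, rfl⟩
    rw [map_add p y y', hy, hy', add_zero] at h2
    obtain ⟨φ, hφ, hφy⟩ := h2
    have h3 : φ y + φ y' = y := by
      rw [← map_add]
      exact hφy
    have h4 := congrArg p h3
    rw [map_add, ← hcA φ hφ, ← hcA φ hφ, hy, hy', map_zero, add_zero] at h4
    refine ⟨φ, hφ, h4, ?_⟩
    rw [h4] at h3
    exact add_eq_left.1 h3
  tfae_have 2 → 1 := by
    intro h
    obtain ⟨c, hc1, hc2, hc3⟩ := Pool.Agent.TH133.PW.separate_two (U := LinearMap.ker (p - 1))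
      (U' := LinearMap.ker p) h1 hmul (IsNoetherian.noetherian _) (IsNoetherian.noetherian _)
      (by
        intro b hb y hy
        rw [LinearMap.mem_ker, LinearMap.sub_apply, Module.End.one_apply, sub_eq_zero] at hy ⊢
        rw [← hcA b hb, hy])
      (by
        intro b hb y hy
        rw [LinearMap.mem_ker] at hy ⊢
        rw [← hcA b hb, hy, map_zero])
      (by
        intro y hy y' hy'
        rw [LinearMap.mem_ker, LinearMap.sub_apply, Module.End.one_apply, sub_eq_zero] at hy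
        exact h y y' hy hy')
    have e : p = 1 - c := by
      ext x
      have h2 := hc2 (p x) (by
        rw [LinearMap.mem_ker, LinearMap.sub_apply, Module.End.one_apply, sub_eq_zero, hpp])
      have h3 := hc3 (x - p x) (by rw [LinearMap.mem_ker, map_sub, hpp, sub_self])
      rw [map_sub, h2, sub_zero] at h3
      rw [LinearMap.sub_apply, Module.End.one_apply, h3]
      abel
    rw [e]
    exact Submodule.sub_mem _ h1 hc1
  tfae_have 2 → 3 := by
    intro h y y' hy hy' l l' hl
    obtain ⟨φ, hφ, h2, h3⟩ := h y y' hy hy'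
    have key : ∀ φ ∈ span K S, l (φ y) + l' (φ y') = 0 := by
      intro φ hφ
      induction hφ using Submodule.span_induction with
      | mem φ hφ => exact hl φ hφ
      | zero => simp
      | add φ ψ _ _ h1 h2 =>
        rw [LinearMap.add_apply, LinearMap.add_apply, map_add, map_add]
        linear_combination h1 + h2
      | smul a φ _ h1 =>
        rw [LinearMap.smul_apply, LinearMap.smul_apply, map_smul, map_smul, ← smul_add, h1, smul_zero]
    have h4 := key φ hφ
    rwa [h2, h3, map_zero, add_zero] at h4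
  tfae_have 3 → 2 := by
    intro h y y' hy hy'
    let M : Submodule K (V × V) := (span K S).map ((LinearMap.applyₗ y).prod (LinearMap.applyₗ y'))
    by_contra hcon
    have hnot : ((y, 0) : V × V) ∉ M := by
      rintro ⟨φ, hφ, hφy⟩
      have h1 : φ y = y := congrArg Prod.fst hφy
      have h2 : φ y' = 0 := congrArg Prod.snd hφy
      exact hcon ⟨φ, hφ, h1, h2⟩
    obtain ⟨f, hf, hfM⟩ := Submodule.exists_le_ker_of_notMem hnot
    have hff : ∀ x x', f (x, x') = (f ∘ₗ LinearMap.inl K _ _) x + (f ∘ₗ LinearMap.inr K _ _) x' := by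
      intro x x'
      rw [LinearMap.comp_apply, LinearMap.comp_apply, ← map_add]
      simp
    apply hf
    rw [hff, map_zero, add_zero]
    refine h y y' hy hy' _ (f ∘ₗ LinearMap.inr K _ _) fun φ hφ => ?_
    rw [← hff]
    exact hfM ⟨φ, subset_span hφ, rfl⟩
  tfae_have 4 → 5 := noCommon_of_split hcS
  tfae_have 5 → 4 := split_of_noCommon hpp hcS
  tfae_finish

end Pool.Agent.N553.PP
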