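import Pool.Agent.H578R3.SgnLin

/-!
# Common factors and operators whose powers all have the same super trace
-/

set_option autoImplicit false

namespace Pool.Agent.N553.PP

open Polynomial Pool.Agent.H914 Pool.Agent.H447 Pool.Agent.H578R3.Sgn

section Inter

variable {K V W : Type*} [Field K] [AddCommGroup V] [Module K V] [AddCommGroup W] [Module K W]

theorem inter_pow (f : V →ₗ[K] W) (S : Module.End K V) (T : Module.End K W)
    (h : ∀ x, f (S x) = T (f x)) (n : ℕ) : ∀ x, f ((S ^ n) x) = (T ^ n) (f x) := by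
  induction n with
  | zero => exact fun x => rfl
  | succ n ih =>
    intro x
    rw [pow_succ, pow_succ, Module.End.mul_apply, Module.End.mul_apply, ih, h]

theorem inter (f : V →ₗ[K] W) (S : Module.End K V) (T : Module.End K W)
    (h : ∀ x, f (S x) = T (f x)) (q : K[X]) (x : V) : f (aeval S q x) = aeval T q (f x) := by
  induction q using Polynomial.induction_on' with
  | add p q hp hq => rw [map_add, map_add, LinearMap.add_apply, LinearMap.add_apply, map_add, hp, hq]
  | monomial n a =>
    rw [aeval_monomial, aeval_monomial, Module.End.mul_apply, Module.End.mul_apply,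
      Module.algebraMap_end_apply, Module.algebraMap_end_apply, map_smul, inter_pow f S T h]

end Inter

variable {K V : Type*} [Field K] [CharZero K] [AddCommGroup V] [Module K V] [Module.Finite K V]

/-- **The rank of an equivariant map from a subspace of the even part to a quotient of the odd part.** -/
theorem rank_bound {p T : Module.End K V} (hp : p * p = p) (hT : Commute T p) {d : K}
    (h : ∀ r : ℕ, LinearMap.trace K V ((p - (1 - p)) * T ^ (r + 1)) = d)
    {N L : Submodule K V} (hNp : ∀ x ∈ N, p x = x) (hN : ∀ x ∈ N, T x ∈ N) (hL : ∀ x ∈ L, T x ∈ L)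
    (g : N →ₗ[K] V ⧸ L) (hg : ∀ x : N, ∃ y', p y' = 0 ∧ g x = L.mkQ y')
    (hgT : ∀ (x x' : N) (y' : V), (x' : V) = T x → g x = L.mkQ y' → g x' = L.mkQ (T y')) :
    ∃ r : ℕ, d = LinearMap.trace K V p - r ∧ Module.finrank K (LinearMap.range g) ≤ r := by
  obtain ⟨q, hq1, hEE, -, -⟩ := exists_one_proj T
  obtain ⟨E, hE⟩ : ∃ E : Module.End K V, E = aeval T (X * q) := ⟨_, rfl⟩
  have hE' : T * aeval T q = E := by rw [hE, map_mul, aeval_X]
  rw [hE'] at hEE
  have hEp : Commute E p := by
    rw [← hE']
    exact hT.mul_left (comm_aeval hT.symm q).symm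
  have hq : (1 - p) * (1 - p) = 1 - p := by rw [mul_sub, sub_mul, sub_mul, hp]; simp
  have hF : (1 - E) * (1 - E) = 1 - E := by rw [mul_sub, sub_mul, sub_mul, hEE]; simp
  have hEq : Commute E (1 - p) := (Commute.one_right E).sub_right hEp
  have hpF : Commute (1 - E) p := (Commute.one_left p).sub_left hEp
  have i1 : (p * E) * (p * E) = p * E := by
    calc (p * E) * (p * E) = p * (E * p) * E := by simp only [mul_assoc]
      _ = (p * p) * (E * E) := by rw [hEp.eq]; simp only [mul_assoc]
      _ = p * E := by rw [hp, hEE]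
  have i2 : ((1 - p) * E) * ((1 - p) * E) = (1 - p) * E := by
    calc ((1 - p) * E) * ((1 - p) * E) = (1 - p) * (E * (1 - p)) * E := by simp only [mul_assoc]
      _ = ((1 - p) * (1 - p)) * (E * E) := by rw [hEq.eq]; simp only [mul_assoc]
      _ = (1 - p) * E := by rw [hq, hEE]
  have i3 : (p * (1 - E)) * (p * (1 - E)) = p * (1 - E) := by
    calc (p * (1 - E)) * (p * (1 - E)) = p * ((1 - E) * p) * (1 - E) := by simp only [mul_assoc]
      _ = (p * p) * ((1 - E) * (1 - E)) := by rw [hpF.eq]; simp only [mul_assoc]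
      _ = p * (1 - E) := by rw [hp, hF]
  have t1 := trace_idem i1
  have t2 := trace_idem i2
  have t3 := trace_idem i3
  refine ⟨Module.finrank K (LinearMap.range ((1 - p) * E)) +
    Module.finrank K (LinearMap.range (p * (1 - E))), ?_, ?_⟩
  · have h1 := trace_mul h q
    rw [hq1, mul_one, hE', sub_mul, map_sub, t2] at h1
    push_cast
    rw [← t3, ← h1]
    have h2 : LinearMap.trace K V p = LinearMap.trace K V (p * E) + LinearMap.trace K V (p * (1 - E)) := by
      rw [← map_add]
      congr 1
      noncomm_ring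
    rw [h2]
    ring
  -- the rank
  obtain ⟨TN, hTN⟩ : ∃ TN : Module.End K N, ∀ x : N, (TN x : V) = T x :=
    ⟨T.restrict hN, fun x => rfl⟩
  obtain ⟨TL, hTL⟩ : ∃ TL : Module.End K (V ⧸ L), ∀ y : V, TL (L.mkQ y) = L.mkQ (T y) :=
    ⟨L.mapQ L T hL, fun y => rfl⟩
  have hgg : ∀ x, g (TN x) = TL (g x) := by
    intro x
    obtain ⟨y, -, hy⟩ := hg x
    rw [hgT x (TN x) y (hTN x) hy, hy, hTL]
  obtain ⟨EN, hEN⟩ : ∃ EN : Module.End K N, EN = aeval TN (X * q) := ⟨_, rfl⟩
  have e1 : ∀ x : N, (EN x : V) = E x := by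
    intro x
    rw [hEN, hE]
    exact inter N.subtype TN T hTN (X * q) x
  have e2 : ∀ x : N, g (EN x) = aeval TL (X * q) (g x) := by
    intro x
    rw [hEN]
    exact inter g TN TL hgg (X * q) x
  have e3 : ∀ y : V, aeval TL (X * q) (L.mkQ y) = L.mkQ (E y) := by
    intro y
    rw [hE]
    exact (inter L.mkQ T TL (fun y => (hTL y).symm) (X * q) y).symm
  have hle : LinearMap.range g ≤ (LinearMap.range ((1 - p) * E)).map L.mkQ ⊔
      (LinearMap.range (1 - EN)).map g := by
    rintro _ ⟨x, rfl⟩
    have h1 : g x = g (EN x) + g ((1 - EN) x) := by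
      rw [← map_add]
      congr 1
      rw [LinearMap.sub_apply, Module.End.one_apply]
      abel
    rw [h1]
    refine Submodule.add_mem_sup ?_ ⟨(1 - EN) x, ⟨x, rfl⟩, rfl⟩
    obtain ⟨y, hy0, hy⟩ := hg x
    rw [e2, hy, e3]
    refine ⟨E y, ⟨y, ?_⟩, rfl⟩
    rw [Module.End.mul_apply, LinearMap.sub_apply, Module.End.one_apply, ← Module.End.mul_apply p E,
      ← hEp.eq, Module.End.mul_apply, hy0, map_zero, sub_zero]
  have hN2 : Module.finrank K (LinearMap.range (1 - EN)) ≤
      Module.finrank K (LinearMap.range (p * (1 - E))) := by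
    rw [← Submodule.finrank_map_subtype_eq N (LinearMap.range (1 - EN))]
    refine Submodule.finrank_mono ?_
    rintro _ ⟨_, ⟨x, rfl⟩, rfl⟩
    refine ⟨x, ?_⟩
    rw [← hpF.eq, Module.End.mul_apply, hNp x x.2, Submodule.subtype_apply, LinearMap.sub_apply,
      LinearMap.sub_apply, Module.End.one_apply, Module.End.one_apply, Submodule.coe_sub, e1]
  calc Module.finrank K (LinearMap.range g)
      ≤ Module.finrank K ((LinearMap.range ((1 - p) * E)).map L.mkQ ⊔
        (LinearMap.range (1 - EN)).map g : Submodule K (V ⧸ L)) := Submodule.finrank_mono hle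
    _ ≤ Module.finrank K ((LinearMap.range ((1 - p) * E)).map L.mkQ) +
        Module.finrank K ((LinearMap.range (1 - EN)).map g) :=
      Submodule.finrank_add_le_finrank_add_finrank _ _
    _ ≤ _ := add_le_add (Submodule.finrank_map_le _ _) ((Submodule.finrank_map_le _ _).trans hN2)

end Pool.Agent.N553.PP
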