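import Pool.Agent.N553.PP.Core
import Pool.Agent.N553.PP.Rank
import Pool.Agent.N164.NC.Rank

/-!
# Common factors of the even and the odd part of a realisation
-/

set_option autoImplicit false

open CategoryTheory Limits MonoidalCategory

namespace Pool.Agent.N553.PP

section Inv

variable {K V : Type*} [Field K] [AddCommGroup V] [Module K V]

/-- Let `s` be an involution of `V` and `S` a set of operators. For each even `y` (that is, `s y = y`) and odd
`z` (that is, `s z = -z`) some linear combination of the operators in `S`, which may depend on `y` and `z`, fixes `y`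
and kills `z`. -/
def InvPointwise (s : Module.End K V) (S : Set (Module.End K V)) : Prop :=
  ∀ y z, s y = y → s z = -z → ∃ φ ∈ Submodule.span K S, φ y = y ∧ φ z = 0

/-- If `y` is even, `z` odd, `l` and `m` are linear forms and `l (φ y) + m (φ z) = 0` for all `φ` in `S`, then
`l y = 0`. -/
def InvDetects (s : Module.End K V) (S : Set (Module.End K V)) : Prop :=
  ∀ y z, s y = y → s z = -z → ∀ l m : V →ₗ[K] K, (∀ φ ∈ S, l (φ y) + m (φ z) = 0) → l y = 0

/-- Every subspace which is stable under the operators in `S` is stable under `s`, that is, the sum of its even and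
its odd part. -/
def InvSplit (s : Module.End K V) (S : Set (Module.End K V)) : Prop :=
  ∀ N : Submodule K V, Stable S N → ∀ y ∈ N, s y ∈ N

/-- The values of the map `g` with values in `V / L` are classes of odd vectors. -/
def OddValued (s : Module.End K V) {N L : Submodule K V} (g : N →ₗ[K] V ⧸ L) : Prop :=
  ∀ y : N, ∃ z, s z = -z ∧ g y = L.mkQ z

/-- The map `g` from `N` to `V / L` commutes with the operators in `S`. -/
def Equivariant (S : Set (Module.End K V)) {N L : Submodule K V} (g : N →ₗ[K] V ⧸ L) : Prop :=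
  ∀ φ ∈ S, ∀ (y y' : N) (z : V), (y' : V) = φ y → g y = L.mkQ z → g y' = L.mkQ (φ z)

/-- `N` is a stable subspace of the even part, `L` a stable subspace of the odd part of `V`, and `g` is a linear map
from `N` to the quotient of the odd part by `L` which commutes with the operators in `S`. -/
structure IsCommonMap (s : Module.End K V) (S : Set (Module.End K V)) {N L : Submodule K V}
    (g : N →ₗ[K] V ⧸ L) : Prop where
  stable : Stable S N
  stable' : Stable S L
  even : ∀ y ∈ N, s y = y
  odd : ∀ y ∈ L, s y = -y
  oddValued : OddValued s g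
  equivariant : Equivariant S g

/-- All maps as in `IsCommonMap` are zero: the even and the odd part have no common factor. -/
def NoCommon (s : Module.End K V) (S : Set (Module.End K V)) : Prop :=
  ∀ (N L : Submodule K V) (g : N →ₗ[K] V ⧸ L), IsCommonMap s S g → g = 0

/-- For every map `g` as in `IsCommonMap` the number `c + 2 rank g` is at most the dimension of `V`. -/
def RankBound (s : Module.End K V) (S : Set (Module.End K V)) (c : ℚ) : Prop :=
  ∀ (N L : Submodule K V) (g : N →ₗ[K] V ⧸ L), IsCommonMap s S g →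
    c + 2 * (Module.finrank K (LinearMap.range g) : ℚ) ≤ Module.finrank K V

variable {s p : Module.End K V} {S : Set (Module.End K V)}

theorem inv_even (h2 : (2 : K) ≠ 0) (hs : s = p - (1 - p)) (y : V) : s y = y ↔ p y = y := by
  rw [hs]
  change p y - (y - p y) = y ↔ p y = y
  constructor
  · intro h
    have h3 : (2 : K) • (p y - y) = 0 := by
      rw [two_smul]
      have h4 : p y - y + (p y - y) = p y - (y - p y) - y := by abel
      rw [h4, h, sub_self]
    exact sub_eq_zero.1 ((smul_eq_zero.1 h3).resolve_left h2)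
  · intro h
    rw [h, sub_self, sub_zero]

theorem inv_odd (h2 : (2 : K) ≠ 0) (hs : s = p - (1 - p)) (y : V) : s y = -y ↔ p y = 0 := by
  rw [hs]
  change p y - (y - p y) = -y ↔ p y = 0
  constructor
  · intro h
    have h3 : (2 : K) • p y = 0 := by
      rw [two_smul]
      have h4 : p y + p y = p y - (y - p y) + y := by abel
      rw [h4, h, neg_add_cancel]
    exact (smul_eq_zero.1 h3).resolve_left h2
  · intro h
    rw [h, sub_zero, zero_sub]

theorem inv_mem (h2 : (2 : K) ≠ 0) (hs : s = p - (1 - p)) (N : Submodule K V) {y : V} (hy : y ∈ N) :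
    s y ∈ N ↔ p y ∈ N := by
  rw [hs]
  change p y - (y - p y) ∈ N ↔ p y ∈ N
  constructor
  · intro h
    have h3 : (2 : K) • p y ∈ N := by
      rw [two_smul]
      have h4 : p y + p y = p y - (y - p y) + y := by abel
      rw [h4]
      exact N.add_mem h hy
    exact (Submodule.smul_mem_iff N h2).1 h3
  · intro h
    exact N.sub_mem h (N.sub_mem hy h)

/-- **The pointwise principle for an involution.** -/
theorem inv_tfae [FiniteDimensional K V] (h2 : (2 : K) ≠ 0) (hs : s = p - (1 - p)) (hp : p * p = p)
    (hc : ∀ φ ∈ S, Commute φ p) (h1 : (1 : Module.End K V) ∈ Submodule.span K S)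
    (hmul : ∀ a ∈ Submodule.span K S, ∀ b ∈ Submodule.span K S, a * b ∈ Submodule.span K S) :
    [p ∈ Submodule.span K S, InvPointwise s S, InvDetects s S, InvSplit s S, NoCommon s S].TFAE := by
  have core := core hp hc h1 hmul
  have e1 : InvPointwise s S ↔ Separates p S := by
    constructor
    · exact fun h y z hy hz => h y z ((inv_even h2 hs y).2 hy) ((inv_odd h2 hs z).2 hz)
    · exact fun h y z hy hz => h y z ((inv_even h2 hs y).1 hy) ((inv_odd h2 hs z).1 hz)
  have e2 : InvDetects s S ↔ Detects p S := by
    constructor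
    · exact fun h y z hy hz => h y z ((inv_even h2 hs y).2 hy) ((inv_odd h2 hs z).2 hz)
    · exact fun h y z hy hz => h y z ((inv_even h2 hs y).1 hy) ((inv_odd h2 hs z).1 hz)
  have e3 : InvSplit s S ↔ StableSplit p S := by
    constructor
    · exact fun h N hN x hx => (inv_mem h2 hs N hx).1 (h N hN x hx)
    · exact fun h N hN x hx => (inv_mem h2 hs N hx).2 (h N hN x hx)
  have e4 : NoCommon s S ↔ NoCommonFactor p S := by
    constructor
    · intro h N L hN hL hN' hL' g hg hgS
      refine h N L g ⟨hN, hL, fun y hy => (inv_even h2 hs y).2 (hN' y hy),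
        fun y hy => (inv_odd h2 hs y).2 (hL' y hy), fun y => ?_, hgS⟩
      obtain ⟨z, hz, hz'⟩ := hg y
      exact ⟨z, (inv_odd h2 hs z).2 hz, hz'⟩
    · intro h N L g hg
      refine h N L hg.stable hg.stable' (fun y hy => (inv_even h2 hs y).1 (hg.even y hy))
        (fun y hy => (inv_odd h2 hs y).1 (hg.odd y hy)) g (fun y => ?_) hg.equivariant
      obtain ⟨z, hz, hz'⟩ := hg.oddValued y
      exact ⟨z, (inv_odd h2 hs z).1 hz, hz'⟩
  rw [e1, e2, e3, e4]
  exact core

end Inv

section Realisation

open Pool.Agent.Y112.SR Pool.Agent.Y112.KD Pool.Agent.R484.NC Pool.Agent.N164.NC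

universe v u w

variable {C : Type u} [Category.{v} C] [Preadditive C] [MonoidalCategory C] [SymmetricCategory C]
  {E : Type w} [Field E]

/-- The parity operator on the realisation of `M`: `1` on the even and `-1` on the odd part. -/
noncomputable def parity (R : SuperRealisation C E) (M : C) : Module.End E (R.H.obj M) := (R.par M).hom

/-- The operators on the realisation of `M` which are induced by endomorphisms of `M`. -/
def endos (R : SuperRealisation C E) (M : C) : Set (Module.End E (R.H.obj M)) :=
  Set.range fun f : M ⟶ M => (R.H.map f).hom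

variable [Linear ℚ C] [MonoidalPreadditive C] [MonoidalLinear ℚ C] [RightRigidCategory C]

/-- The sign conjecture for one object and one realisation. -/
theorem realisation_tfae (hU : UnitQ C) (R : SuperRealisation C E) (M : C) :
    [R.CPlus M, InvPointwise (parity R M) (endos R M), InvDetects (parity R M) (endos R M),
      InvSplit (parity R M) (endos R M), NoCommon (parity R M) (endos R M)].TFAE := by
  have hc := R_charZero R
  have hfin := R.finite M
  have key : R.CPlus M ↔ evp R M ∈ Submodule.span E (endos R M) := by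
    constructor
    · intro h
      obtain ⟨f, hf⟩ := (cplus_iff_op R M).1 h
      rw [← hf]
      exact Submodule.subset_span ⟨f, rfl⟩
    · exact cplus_of_span R hU
  rw [key]
  exact inv_tfae (two_ne_zero) (par_hom R M) (evp_idem R M)
    (by rintro _ ⟨f, rfl⟩; exact op_comm R f) (ops_one R M) (ops_mul R M)

/-- One half of the bound. -/
theorem half_bound (hU : UnitQ C) (R : SuperRealisation C E) {M : C} {w : M ⟶ M}
    (hw : NumInvolution hU w) {N L : Submodule E (R.H.obj M)} (g : N →ₗ[E] (R.H.obj M) ⧸ L)
    (hg : IsCommonMap (parity R M) (endos R M) g) :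
    ctr hU w + 2 * (Module.finrank E (LinearMap.range g) : ℚ) ≤ totalDim R M := by
  have hc := R_charZero R
  have h0 := R.finite M
  have h2 : (2 : E) ≠ 0 := two_ne_zero
  obtain ⟨z, hz⟩ : ∃ z : M ⟶ M, z = (2⁻¹ : ℚ) • (𝟙 M + w) := ⟨_, rfl⟩
  have hzz : z ≫ z - z = (4⁻¹ : ℚ) • (w ≫ w - 𝟙 M) := by
    rw [hz]
    simp only [Linear.smul_comp, Linear.comp_smul, Preadditive.add_comp, Preadditive.comp_add,
      Category.id_comp, Category.comp_id, smul_smul, smul_add, smul_sub]
    have e1 : (2⁻¹ : ℚ) * 2⁻¹ = 4⁻¹ := by norm_num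
    have e2 : ∀ x : M ⟶ M, (2⁻¹ : ℚ) • x = (4⁻¹ : ℚ) • x + (4⁻¹ : ℚ) • x := by
      intro x; rw [← add_smul]; norm_num
    rw [e1, e2 (𝟙 M), e2 w]
    abel
  have hconst : ∀ r : ℕ, LinearMap.trace E (R.H.obj M)
      ((evp R M - (1 - evp R M)) * op R z ^ (r + 1)) = str R z := by
    intro r
    induction r with
    | zero => rw [zero_add, pow_one, str_eq]
    | succ r ih =>
      rw [← ih]
      have h1 : ctr hU ((z ≫ z - z) ≫ pw z r) = 0 := by
        rw [hzz, Linear.smul_comp, ctr_smul, hw, mul_zero]
      have h2 : ((ctr hU ((z ≫ z - z) ≫ pw z r) : ℚ) : E) = 0 := by rw [h1, Rat.cast_zero]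
      rw [ctr_eq R, str_eq, Pool.Agent.R484.NC.op_comp, Pool.Agent.R484.NC.op_sub, Pool.Agent.R484.NC.op_comp, op_pw, mul_sub, mul_sub, map_sub,
        sub_eq_zero] at h2
      rw [← pow_two, ← pow_add, ← pow_succ] at h2
      exact h2
  have hs : parity R M = evp R M - (1 - evp R M) := par_hom R M
  obtain ⟨r, hd, hr⟩ := rank_bound (evp_idem R M) (op_comm R z) hconst (N := N) (L := L)
    (fun y hy => (inv_even h2 hs y).1 (hg.even y hy))
    (fun y hy => hg.stable (op R z) ⟨z, rfl⟩ y hy) (fun y hy => hg.stable' (op R z) ⟨z, rfl⟩ y hy) g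
    (fun y => by
      obtain ⟨t, ht, ht'⟩ := hg.oddValued y
      exact ⟨t, (inv_odd h2 hs t).1 ht, ht'⟩)
    (fun y y' t h3 h4 => hg.equivariant (op R z) ⟨z, rfl⟩ y y' t h3 h4)
  rw [trace_evp] at hd
  have hd' : ctr hU z = (evenDim R M : ℚ) - r := by
    have h : ((ctr hU z : ℚ) : E) = (((evenDim R M : ℚ) - r : ℚ) : E) := by
      rw [ctr_eq R, hd]
      push_cast
      rfl
    exact_mod_cast h
  have hw2 : ctr hU w = 2 * ctr hU z - ctr hU (𝟙 M) := by
    rw [hz, ctr_smul, ctr_add]
    ring
  have hr' : (Module.finrank E (LinearMap.range g) : ℚ) ≤ r := by exact_mod_cast hr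
  rw [hw2, hd', ctr_one R hU M]
  linarith

/-- **The trace of a numerical involution and the common factors.** -/
theorem common_bound (hU : UnitQ C) (R : SuperRealisation C E) {M : C} {w : M ⟶ M}
    (hw : NumInvolution hU w) {N L : Submodule E (R.H.obj M)} (g : N →ₗ[E] (R.H.obj M) ⧸ L)
    (hg : IsCommonMap (parity R M) (endos R M) g) :
    |ctr hU w| + 2 * (Module.finrank E (LinearMap.range g) : ℚ) ≤ totalDim R M := by
  have h1 := half_bound hU R hw g hg
  have h2 := half_bound hU R (neg_involution hU hw) g hg
  rw [ctr_neg] at h2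
  rcases abs_cases (ctr hU w) with ⟨h3, -⟩ | ⟨h3, -⟩ <;> rw [h3] <;> assumption

end Realisation

end Pool.Agent.N553.PP
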